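import Pool.Agent.Helper51.AJ.St
import Pool.Agent.Helper51.AJ.Basic

/-!
# Project AJ, module FEX: from the checker to excluded minors
-/

set_option autoImplicit false

namespace Pool.Agent.Helper72.AJ

open Pool.Agent.Helper51.AJ

private theorem anyPair_of {n : ℕ} (P : Fin n → Fin n → Bool) : ∀ l : List (Fin n),
    l.Pairwise (· < ·) → ∀ x ∈ l, ∀ y ∈ l, x < y → P x y = true → anyPair P l = true := by
  intro l
  induction l with
  | nil =>
    intro _ x hx
    simp at hx
  | cons a l ih =>
    intro hl x hx y hy hxy hP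
    rw [anyPair, Bool.or_eq_true]
    rw [List.pairwise_cons] at hl
    rcases List.mem_cons.1 hx with rfl | hx'
    · left
      rcases List.mem_cons.1 hy with rfl | hy'
      · exact absurd hxy (lt_irrefl _)
      · exact List.any_eq_true.2 ⟨y, hy', hP⟩
    · right
      rcases List.mem_cons.1 hy with rfl | hy'
      · exact absurd hxy (not_lt.2 (hl.1 x hx').le)
      · exact ih hl.2 x hx' y hy' hxy hP

private theorem fex_aux (h1 : StTrn) (h3 : StFel) (Q : ∀ (V : Type), SimpleGraph V → Prop)
    (T : ∀ {n : ℕ}, (Fin n → Fin n → Bool) → List (Fin n) → Bool)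
    (hQ : ∀ (W V : Type) (H : SimpleGraph W) (G : SimpleGraph V), IsMinor H G → Q V G → Q W H)
    (hT : ∀ (n : ℕ) (A : Fin n → Fin n → Bool) (l : List (Fin n)), l.Pairwise (· < ·) → T A l = true →
      Q _ ((ga A).induce {z | z ∈ l}))
    (n : ℕ) (A : Fin n → Fin n → Bool) (hel : elem T A = true) (W : Type) (H : SimpleGraph W)
    (hH : IsMinor H (ga A)) (hiso : ¬ Nonempty (H ≃g ga A)) : Q W H := by
  have huniv : {x : Fin n | x ∈ List.finRange n} = Set.univ := by
    ext x
    simp
  have hmod : Mod H (ga A) {x | x ∈ List.finRange n} := by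
    rw [huniv]
    exact mod_univ.2 hH
  have hsort : (List.finRange n).Pairwise (· < ·) := List.pairwise_lt_finRange n
  rw [elem, Bool.and_eq_true] at hel
  obtain ⟨he1, he2⟩ := hel
  have he3 : ∀ x y : Fin n, x < y → at2 A x y = true →
      T (ctr A x y) ((List.finRange n).erase y) = true ∧ T (del A x y) (List.finRange n) = true := by
    intro x y hxy hat
    by_contra hcon
    have h5 : anyPair (fun x y => at2 A x y &&
      !(T (ctr A x y) ((List.finRange n).erase y) && T (del A x y) (List.finRange n)))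
        (List.finRange n) = true := by
      apply anyPair_of _ _ hsort x (List.mem_finRange x) y (List.mem_finRange y) hxy
      rw [hat, Bool.true_and, Bool.not_eq_true', Bool.and_eq_false_iff]
      by_contra h6
      push Not at h6
      apply hcon
      constructor
      · simpa using h6.1
      · simpa using h6.2
    rw [h5] at he2
    exact absurd he2 (by simp)
  rcases h3 n A (List.finRange n) W H (List.nodup_finRange n) hmod with
    ⟨x, hx, h⟩ | ⟨x, hx, y, hy, hxy, hat, h⟩ | ⟨f, hf, hfl, hadj⟩
  · have h5 := List.all_eq_true.1 he1 x hx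
    exact hQ _ _ _ _ ((h1.2 _ _ _ _ _).2 h) (hT n A _ (hsort.sublist List.erase_sublist) h5)
  · have h5 := (he3 x y hxy hat).1
    exact hQ _ _ _ _ ((h1.2 _ _ _ _ _).2 h) (hT n _ _ (hsort.sublist List.erase_sublist) h5)
  · have hsurj : Function.Surjective f := fun a => (hfl a).1 (List.mem_finRange a)
    obtain ⟨w, w', hA, hnA⟩ : ∃ w w', (ga A).Adj (f w) (f w') ∧ ¬ H.Adj w w' := by
      by_contra hcon
      push Not at hcon
      apply hiso
      refine ⟨⟨Equiv.ofBijective f ⟨hf, hsurj⟩, ?_⟩⟩
      intro a b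
      exact ⟨hcon a b, hadj a b⟩
    -- order the two ends
    obtain ⟨u, u', hA', hnA', hlt⟩ : ∃ u u', (ga A).Adj (f u) (f u') ∧ ¬ H.Adj u u' ∧ f u < f u' := by
      rcases lt_or_gt_of_ne hA.1 with h | h
      · exact ⟨w, w', hA, hnA, h⟩
      · exact ⟨w', w, hA.symm, fun h' => hnA h'.symm, h⟩
    have hat : at2 A (f u) (f u') = true := by
      rw [at2, Bool.and_eq_true, bne_iff_ne, Bool.or_eq_true]
      exact hA'
    have h5 := (he3 _ _ hlt hat).2
    have h6 := hT n _ _ hsort h5
    refine hQ _ _ _ _ ((h1.2 _ _ _ _ _).2 ?_) h6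
    rw [huniv]
    apply mod_univ.2
    apply isMinor_of_hom f hf
    intro a b hab
    obtain ⟨hne, hor⟩ := hadj a b hab
    have key : ∀ a b, H.Adj a b →
        ((f a == f u && f b == f u') || (f a == f u' && f b == f u)) = false := by
      intro a b hab
      rw [Bool.or_eq_false_iff]
      constructor
      · rw [Bool.and_eq_false_iff]
        by_contra h7
        push Not at h7
        have e1 : f a = f u := by simpa using h7.1
        have e2 : f b = f u' := by simpa using h7.2
        exact hnA' (hf e1 ▸ hf e2 ▸ hab)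
      · rw [Bool.and_eq_false_iff]
        by_contra h7
        push Not at h7
        have e1 : f a = f u' := by simpa using h7.1
        have e2 : f b = f u := by simpa using h7.2
        exact hnA' (hf e1 ▸ hf e2 ▸ hab.symm)
    refine ⟨hne, ?_⟩
    rcases hor with h | h
    · left
      rw [del, h, key a b hab]
      rfl
    · right
      rw [del, h, key b a hab.symm]
      rfl

theorem hFEX (h1 : StTrn) (h2 : StJnm) (h3 : StFel) (h4 : StFck) : StFex := by
  have hpl : ∀ (n : ℕ) (A : Fin n → Fin n → Bool) (l : List (Fin n)), l.Pairwise (· < ·) →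
      plan A l = true → Planar ((ga A).induce {z | z ∈ l}) := by
    intro n A l hl hp
    obtain ⟨h5, h6⟩ := h4 n A l hl hp
    exact ⟨fun h => h5 ((h1.2 _ _ _ _ _).1 h), fun h => h6 ((h1.2 _ _ _ _ _).1 h)⟩
  have hap : ∀ (n : ℕ) (A : Fin n → Fin n → Bool) (l : List (Fin n)), l.Pairwise (· < ·) →
      apx A l = true → Apex ((ga A).induce {z | z ∈ l}) := by
    intro n A l hl hp
    rw [apx, List.any_eq_true] at hp
    obtain ⟨c, hc, hp⟩ := hp
    have h5 := hpl n A _ (hl.sublist List.erase_sublist) hp
    refine Or.inr ⟨⟨c, hc⟩, h2.2.2 _ _ _ _ ?_ h5⟩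
    have hnd : l.Nodup := hl.imp fun h => ne_of_lt h
    have hmem : ∀ x : ({⟨c, hc⟩}ᶜ : Set {z | z ∈ l}), x.1.1 ∈ {z | z ∈ l.erase c} := by
      rintro ⟨⟨x, hx⟩, hxc⟩
      change x ∈ l.erase c
      rw [hnd.mem_erase_iff]
      refine ⟨fun h => hxc ?_, hx⟩
      subst h
      rfl
    refine isMinor_of_hom (fun x => ⟨x.1.1, hmem x⟩) ?_ ?_
    · rintro ⟨⟨x, hx⟩, hxc⟩ ⟨⟨y, hy⟩, hyc⟩ h
      have h6 : x = y := congrArg Subtype.val h
      subst h6
      rfl
    · intro a b h
      exact h
  intro n A
  constructor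
  · intro hel W _ H hH hiso
    exact fex_aux h1 h3 (fun V G => Apex G) apx (fun W V H G => h2.2.1 W V H G) hap n A hel W H hH hiso
  · intro hel W _ H hH hiso
    exact fex_aux h1 h3 (fun V G => Planar G) plan (fun W V H G => h2.2.2 W V H G) hpl n A hel W H hH hiso

end Pool.Agent.Helper72.AJ
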